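import Pool.Agent.W900.CH.NELev
import Pool.Agent.W890.GH.Final

/-!
# How many strings of a random oracle have to be changed to collapse the guess hierarchy?

`IsNPg γ A L` says that `L` is in the class `NP_γ` relative to the oracle `A`. The number of changes
is measured by a function `g`: the oracle `A` is obtained from `O` by changing, for all large `n`, at
most `g n` of the strings of length at most `n`. If `g n ≤ 2 ^ (n ^ ε)` for every `ε > 0` and
infinitely many `n`, then for almost every oracle `O` all classes of the chain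
`NP_{log n} ⊆ NP_n ⊆ NP_{n ^ 2} ⊆ ... ⊆ NP` are different relative to all oracles `A` that are
obtained from `O` by at most `g` changes, however these changes depend on `O`; even more, for all
such `A` some language in `NP_{n ^ k}` cannot be decided with `n ^ j` guesses and polynomial advice
for `j < k`, nor can its complement, its complement is not in `NP^A / poly`, and it is not decided in
polynomial space and time `2 ^ (n ^ j) · poly` with polynomial advice. (The same holds for all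
countable families of pairs of guess bounds with a gap of more than logarithmic size.)
Otherwise every oracle `O` can be changed, by at most `g` changes, into an oracle `A` relative to
which all classes of the chain are equal to `P` (even `PSPACE = P`).

So the threshold is, for every one of the inclusions of the chain, exactly at the functions which
are not subexponential.
-/

set_option autoImplicit false

namespace Pool.Agent.Results.MP_cd574d_lc.ChangedStrings

open Pool.Agent.NPC Pool.Agent.H620R2.Gauge Pool.Agent.W900.CH Pool.Agent.W890.GH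
open Pool.Agent.H628R3.RO (randomOracle)
open MeasureTheory

theorem log_eq (n : ℕ) : Nat.log 2 n = n.bits.length - 1 := by
  rw [Nat.size_eq_bits_len]
  rcases Nat.eq_zero_or_pos n with rfl | hn
  · simp
  · have h1 : 0 < n.size := Nat.size_pos.2 hn
    refine (Nat.log_eq_iff (Or.inr ⟨by norm_num, hn.ne'⟩)).2 ⟨?_, ?_⟩
    · exact Nat.lt_size.1 (by omega)
    · rw [Nat.sub_add_cancel h1]
      exact Nat.lt_size_self n

theorem honest_chain (k : ℕ) : Honest (chain k) := by
  cases k with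
  | succ k => exact honest_pow (k + 1)
  | zero =>
    have h1 : Poly (fun x : List Bool => Nat.log 2 x.length) := by
      have h2 : Poly (fun x : List Bool => x.length.bits.length - 1) :=
        Poly.sub (Poly.length (Poly.natBits (Poly.length Poly.id))) (NPC.Poly.const 1)
      exact h2.congr fun x => (log_eq x.length).symm
    have h3 : UPoly (fun x : List Bool => Nat.log 2 x.length) :=
      UPoly.of_le h1 (UPoly.length Poly.id) fun x => Nat.log_le_self 2 _
    refine ⟨fun x => List.replicate (Nat.log 2 x.length) true,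
      Pool.Agent.H622R2.polyTime_of_poly_list (V7.poly_replicate h3), fun x => ?_⟩
    rw [List.length_replicate]
    rfl

theorem result (g : ℕ → ℝ) :
    ((∀ ε : ℝ, 0 < ε → ∃ᶠ n : ℕ in Filter.atTop, g n ≤ 2 ^ (n : ℝ) ^ ε) →
      (∀ᵐ O ∂randomOracle, ∀ A : Oracle, Close g O A → ∀ j k : ℕ, j < k →
        ∃ L, IsNPg (chain k) A L ∧ ¬ IsNPg (chain j) A L ∧ ¬ IsNPgPoly (chain j) A L ∧
          ¬ IsNPgPoly (chain j) A Lᶜ ∧ ¬ WithAdvice (IsNP A) Lᶜ ∧ ¬ IsTSgPoly (chain j) A L) ∧
      ∀ (ι : Type) [Countable ι] (γ γ' : ι → ℕ → ℕ), (∀ i, Honest (γ' i)) →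
        (∀ i, Gap (γ i) (γ' i)) →
        ∀ᵐ O ∂randomOracle, ∀ A : Oracle, Close g O A → ∀ i, ∃ L, IsNPg (γ' i) A L ∧
          ¬ IsNPg (γ i) A L ∧ ¬ IsNPgPoly (γ i) A L ∧ ¬ IsNPgPoly (γ i) A Lᶜ ∧
          ¬ WithAdvice (IsNP A) Lᶜ ∧ ¬ IsTSgPoly (γ i) A L) ∧
    ((¬ ∀ ε : ℝ, 0 < ε → ∃ᶠ n : ℕ in Filter.atTop, g n ≤ 2 ^ (n : ℝ) ^ ε) →
      ∀ O : Oracle, ∃ A : Oracle, Close g O A ∧ (∀ L, IsPSPACE A L → IsP A L) ∧
        (∀ L, IsNP A L → IsP A L) ∧ ∀ k L, IsNPg (chain k) A L ↔ IsP A L) := by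
  have main : (∀ ε : ℝ, 0 < ε → ∃ᶠ n : ℕ in Filter.atTop, g n ≤ 2 ^ (n : ℝ) ^ ε) →
      ∀ (ι : Type) [Countable ι] (γ γ' : ι → ℕ → ℕ), (∀ i, Honest (γ' i)) →
        (∀ i, Gap (γ i) (γ' i)) →
        ∀ᵐ O ∂randomOracle, ∀ A : Oracle, Close g O A → ∀ i, ∃ L, IsNPg (γ' i) A L ∧
          ¬ IsNPg (γ i) A L ∧ ¬ IsNPgPoly (γ i) A L ∧ ¬ IsNPgPoly (γ i) A Lᶜ ∧
          ¬ WithAdvice (IsNP A) Lᶜ ∧ ¬ IsTSgPoly (γ i) A L := by
    intro hg ι _ γ γ' hH hG
    rcases isEmpty_or_nonempty ι with hι | hι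
    · exact Filter.Eventually.of_forall fun O A _ i => (hι.false i).elim
    obtain ⟨i₀⟩ := hι
    have h0 : ∀ A : Oracle, (∀ L, IsPSPACE A L → Reduces L {x | A x = true}) →
        ∃ i, ∀ L, IsNPg (γ' i) A L → IsNPgPoly (γ i) A L ∨ IsNPgPoly (γ i) A Lᶜ ∨
          WithAdvice (IsNP A) Lᶜ ∨ IsTSgPoly (γ i) A L := fun A hA =>
      ⟨i₀, fun L hL => Or.inl (IsP.isNPg (isP_of_reduces
        (hA L ((hL.isNP (hH i₀)).isPSPACE)))).withAdvice⟩
    have h := ae_far_P (S := {A : Oracle | ∃ i, ∀ L, IsNPg (γ' i) A L →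
        IsNPgPoly (γ i) A L ∨ IsNPgPoly (γ i) A Lᶜ ∨ WithAdvice (IsNP A) Lᶜ ∨
        IsTSgPoly (γ i) A L}) (fun f hf => (key hH hG f _ h0 (fun A hA => hA)).2 hf) hg
    filter_upwards [h] with O hO A hA i
    have h1 : ¬ ∃ i, ∀ L, IsNPg (γ' i) A L → IsNPgPoly (γ i) A L ∨ IsNPgPoly (γ i) A Lᶜ ∨
          WithAdvice (IsNP A) Lᶜ ∨ IsTSgPoly (γ i) A L := hO A hA
    push Not at h1
    obtain ⟨L, h2, h3, h4, h5, h6⟩ := h1 i
    exact ⟨L, h2, fun h => h3 h.withAdvice, h3, h4, h5, h6⟩
  refine ⟨fun hg => ⟨?_, main hg⟩, fun hg O => ?_⟩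
  · have h := main hg {p : ℕ × ℕ // p.1 < p.2} (fun p => chain p.1.1) (fun p => chain p.1.2) ?_
      (fun p => gap_chain p.2)
    · filter_upwards [h] with O hO A hA j k hjk
      exact hO A hA ⟨(j, k), hjk⟩
    · rintro ⟨⟨j, k⟩, hjk⟩
      have hjk' : j < k := hjk
      obtain ⟨k, rfl⟩ : ∃ k', k = k' + 1 := ⟨k - 1, by omega⟩
      exact honest_pow (k + 1)
  · obtain ⟨A, h1, h2⟩ := exists_close_PSPACE hg O
    have h3 : ∀ L, IsPSPACE A L → IsP A L := fun L hL => isP_of_reduces (h2 L hL)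
    exact ⟨A, h1, h3, fun L hL => h3 L hL.isPSPACE,
      fun k L => ⟨fun h => h3 L (h.isNP (honest_chain k)).isPSPACE, fun h => IsP.isNPg h⟩⟩

end Pool.Agent.Results.MP_cd574d_lc.ChangedStrings
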