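import Pool.Agent.W890.GH.Final

/-!
# How many oracles collapse two levels of the guess hierarchy?

`IsNPg g A L` says that `L` is in the class `NP_g` relative to the oracle `A`. Let `g' i` be
computable in polynomial time (in unary) and let `g' i n - g i n` grow faster than every multiple
of `log n`, for countably many indices `i`. For every gauge `f`, the set of the oracles `A` such
that for some `i` the class `NP_{g' i}` is contained in `NP_{g i}` relative to `A` is a null set for
`f` if and only if for every `ε > 0` there are infinitely many `N` with `f N ≤ 2 ^ ((log N) ^ ε)`.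

The same holds for every set `O` of oracles which contains all `A` such that every language in
`PSPACE^A` is polynomial-time many-one reducible to `A`, and such that for all elements `A` of `O`
there is an index `i` such that every language `L` in `NP_{g' i}^A` is in `NP_{g i}^A/poly`, or its
complement is, or its complement is in `NP^A/poly`, or `L` is decided with polynomial advice in
polynomial space and time `2 ^ (g i) · poly` relative to `A`. (So relative to all other oracles
`g' i` guesses can neither be replaced by `g i` guesses nor simulated essentially faster than by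
exhaustive search.)

In particular, this is so for the set of the oracles relative to which two classes of the chain
`NP_{log n} ⊆ NP_n ⊆ NP_{n ^ 2} ⊆ ... ⊆ NP` are equal.
-/

set_option autoImplicit false

namespace Pool.Agent.Results.MP_cd574d_lc.GuessGauge

open Pool.Agent.NPC Pool.Agent.H620R2.Gauge Pool.Agent.W890.GH Filter

theorem result (f : ℕ → ℝ) :
    (∀ (ι : Type) [Countable ι] (g g' : ι → ℕ → ℕ), (∀ i, Honest (g' i)) →
      (∀ i, Gap (g i) (g' i)) → ∀ O : Set Oracle,
      (∀ A : Oracle, (∀ L, IsPSPACE A L → Reduces L {x | A x = true}) → A ∈ O) →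
      (∀ A ∈ O, ∃ i, ∀ L, IsNPg (g' i) A L → IsNPgPoly (g i) A L ∨ IsNPgPoly (g i) A Lᶜ ∨
        WithAdvice (IsNP A) Lᶜ ∨ IsTSgPoly (g i) A L) →
      (Null f O ↔
        ∀ ε : ℝ, 0 < ε → ∃ᶠ N : ℕ in atTop, f N ≤ 2 ^ (Real.logb 2 N) ^ ε)) ∧
    (Null f {A : Oracle |
        (∃ j k, j < k ∧ ∀ L, IsNPg (chain k) A L → IsNPg (chain j) A L) ∨
        (∃ k, ∀ L, IsNP A L → IsNPg (chain k) A L)} ↔
      ∀ ε : ℝ, 0 < ε → ∃ᶠ N : ℕ in atTop, f N ≤ 2 ^ (Real.logb 2 N) ^ ε) := by
  refine ⟨fun ι _ g g' hg' hg O => key hg' hg f O, ?_⟩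
  refine key (ι := {p : ℕ × ℕ // p.1 < p.2}) (g := fun p => chain p.1.1)
    (g' := fun p => chain p.1.2) ?_ (fun p => gap_chain p.2) f _ ?_ ?_
  · rintro ⟨⟨j, k⟩, hjk⟩
    have hjk' : j < k := hjk
    obtain ⟨k, rfl⟩ : ∃ k', k = k' + 1 := ⟨k - 1, by omega⟩
    exact honest_pow (k + 1)
  · intro A hA
    exact Or.inr ⟨0, fun L hL => coding_np hA hL _⟩
  · rintro A (⟨j, k, hjk, h⟩ | ⟨k, h⟩)
    · exact ⟨⟨(j, k), hjk⟩, fun L hL => Or.inl (h L hL).withAdvice⟩
    · exact ⟨⟨(k, k + 1), Nat.lt_succ_self k⟩, fun L hL => Or.inl (h L (chain_isNP hL)).withAdvice⟩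

end Pool.Agent.Results.MP_cd574d_lc.GuessGauge
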