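import Pool.Agent.W895.GH.Fam

/-!
# More guesses help in linear time, even against coin tosses with unbounded error

The model is the one of time-space lower bounds: branching programs on `n` Boolean variables,
`2 ^ S` nodes stand for space `S`, the number of queries for the time. A machine with `g`
nondeterministic steps corresponds to `2 ^ g` programs, one for each sequence of guesses, one of
which has to accept; with unbounded error (type `PP`) at least `θ` of the programs have to accept,
for a threshold `θ` which may be chosen at will (`θ = 1`: nondeterminism, `θ` the number of all
programs: co-nondeterminism).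

We give functions `F n` accepted in one pass over the input with `g n = κ n * log (J n)` guessed
bits and `n ^ 2` nodes, which are not computed in time `k n` and space `S` with
`g n - log (β n)` coin tosses and unbounded error; here `k` is any constant, `β` tends to infinity
as slowly as one likes, `J n * S ≤ n / β n`, and the exponents `κ n` may be constant or tend to
infinity, not faster than a function `B` which depends on `β` only. So no level `a log n` of the
hierarchy of the bounded guesses is equal to a lower one, and a number of guesses slightly larger
than `log n` cannot be replaced by `O (log n)` guesses.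

The function `F n` is a conjunction over `κ n` blocks of the input of disjunctions of `J n` of the
quadratic forms of `Pool.Agent.H554R2` (results `NondetNotRandomised` and `LinearTimeBothSides`,
proved by many seats); programs of length `k n` see only boundedly many of the forms, up to an
exponentially small error (result `AlternationVersusPP`, after the rectangles of Ajtai and of Beame,
Saks, Sun, Vee). The lower bound is a quantitative form of the theorem of Minsky and Papert on the
threshold degree of conjunctions of disjunctions: on the curve of the points with
`(x - 1) ^ 2, (x - 3) ^ 2, ..., (x - 2 κ + 1) ^ 2` ones in the blocks the `2 κ`-th difference of a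
bounded polynomial of bounded degree is at most a constant times `J ^ (-κ)`, whereas it is at least
one for a function with the signs of `F`.
-/

set_option autoImplicit false

namespace Pool.Agent.Results.MP_cd574d_lc.GuessesVersusCoins

open Pool.Agent.H554R2.Sem Pool.Agent.H554R2.Coin

/-- The branching program `P` accepts the input `x` after at most `τ` queries. -/
def Acc {n : ℕ} (P : BP (Fin n) Bool) (τ : ℕ) (x : Pt n) : Prop :=
  ∃ l, P.Comp x l true ∧ l.length ≤ τ

/-- The function `f` is accepted with `I` possible sequences of guesses in one pass: there are `I`
programs with at most `M` nodes, each of which reads on all inputs the same variables in the same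
order, each variable at most once, and `f x` is true if and only if one of them accepts `x`. -/
def OnePassGuess (n I M : ℕ) (f : Pt n → Bool) : Prop :=
  ∃ P : Fin I → BP (Fin n) Bool,
    (∀ ω, Fintype.card (P ω).State ≤ M ∧
      ∃ l : List (Fin n), l.Nodup ∧ ∀ x : Pt n, ∃ b, (P ω).Comp x l b) ∧
    ∀ x, f x = true ↔ ∃ ω l, (P ω).Comp x l true

/-- The function `f` has no computation of the type `PP` in time `k * n` and space `S` with `M`
sequences of coin tosses: for all `I ≤ M`, all programs `P ω`, `ω < I`, with at most `2 ^ S` nodes,
all thresholds `θ` and all `τ ≤ k * n` there is an `x` for which it is not true that `f x` is true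
if and only if at least `θ` of the programs accept `x` within `τ` queries. -/
def NoPP {n : ℕ} (k S M : ℕ) (f : Pt n → Bool) : Prop :=
  ∀ τ ≤ k * n, ∀ (I θ : ℕ) (P : Fin I → BP (Fin n) Bool), I ≤ M →
    (∀ ω, Fintype.card (P ω).State ≤ 2 ^ S) →
    ∃ x, ¬ (f x = true ↔ θ ≤ Nat.card {ω // Acc (P ω) τ x})

/-- Let `β n` tend to infinity, as slowly as one likes.  There is a function `B n` which tends to
infinity such that for all exponents `κ n` between `1` and `B n` and all `J n` between `1` and
`n / β n` there is a family of functions `F n` with the following properties for all constants `k`
and all large `n`.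

1. `F n` is accepted in one pass by programs with `n ^ 2` nodes and `J n ^ κ n` possible sequences
of guesses.

2. `F n` has no computation of the type `PP` in time `k n` and space `S` with `M` sequences of coin
tosses if `n ≤ 2 ^ S`, `β n * J n * S ≤ n` and `β n * (M + 1) ≤ J n ^ κ n`. -/
theorem result (β : ℕ → ℕ) (hβ : Filter.Tendsto β Filter.atTop Filter.atTop) :
    ∃ B : ℕ → ℕ, Filter.Tendsto B Filter.atTop Filter.atTop ∧ ∀ κ J : ℕ → ℕ,
      (∃ N, ∀ n ≥ N, 1 ≤ κ n ∧ κ n ≤ B n ∧ 1 ≤ J n ∧ β n * J n ≤ n) →
      ∃ F : ∀ n, Pt n → Bool, ∀ k, ∃ N, ∀ n ≥ N,
        OnePassGuess n (J n ^ κ n) (n ^ 2) (F n) ∧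
        ∀ S, n ≤ 2 ^ S → β n * (J n * S) ≤ n → ∀ M, β n * (M + 1) ≤ J n ^ κ n →
          NoPP k S M (F n) :=
  Pool.Agent.W895.GH.guess_family β hβ

end Pool.Agent.Results.MP_cd574d_lc.GuessesVersusCoins
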